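import Mathlib

/-!
Definitions for MP_c85350_lc: minimum dominating sets of permutation graphs in linear time.
Vertices are the numbers 1,...,n; vertex x is the point (x, s x) of the plane.
-/

namespace PDS

/-- `s` and `t` are mutually inverse on `{1,...,n}`. -/
def IsP (n : ℕ) (s t : ℕ → ℕ) : Prop :=
  (∀ x, 1 ≤ x → x ≤ n → 1 ≤ s x ∧ s x ≤ n ∧ t (s x) = x) ∧
  (∀ y, 1 ≤ y → y ≤ n → 1 ≤ t y ∧ t y ≤ n ∧ s (t y) = y)

/-- crossing segments -/
def adj (s : ℕ → ℕ) (x y : ℕ) : Prop := (x < y ∧ s y < s x) ∨ (y < x ∧ s x < s y)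

/-- `z` lies in the closed neighbourhood of `D` -/
def dom (s : ℕ → ℕ) (D : Finset ℕ) (z : ℕ) : Prop := z ∈ D ∨ ∃ d ∈ D, adj s z d

/-- `D` covers every point with first coordinate at most `X` or second coordinate at most `Y` -/
def Cov (n : ℕ) (s : ℕ → ℕ) (D : Finset ℕ) (X Y : ℕ) : Prop :=
  ∀ z, 1 ≤ z → z ≤ n → (z ≤ X ∨ s z ≤ Y) → dom s D z

/-- no point strictly between `(X,Y)` and `(a,b)` -/
def Emp (n : ℕ) (s : ℕ → ℕ) (X Y a b : ℕ) : Prop :=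
  ∀ z, 1 ≤ z → z ≤ n → X < z → z < a → Y < s z → s z < b → False

/-- no point strictly north-east of `(X,Y)` -/
def QE (n : ℕ) (s : ℕ → ℕ) (X Y : ℕ) : Prop :=
  ∀ z, 1 ≤ z → z ≤ n → X < z → Y < s z → False

/-- prefix maximum -/
def mx (f : ℕ → ℕ) (a : ℕ) : ℕ := (Finset.Icc 1 a).sup f

/-- The frontiers reached by the dynamic program with cost `k` (a down-closed set for each `k`). -/
inductive AA (n : ℕ) (s t : ℕ → ℕ) : ℕ → ℕ → ℕ → Prop
  | zero : AA n s t 0 0 0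
  | ext1 {k X Y x y : ℕ} : AA n s t k X Y → x ≤ X → y ≤ mx s X → AA n s t (k+1) x y
  | ext2 {k X Y x y : ℕ} : AA n s t k X Y → x ≤ mx t Y → y ≤ Y → AA n s t (k+1) x y
  | sing {k X Y v x y : ℕ} : AA n s t k X Y → 1 ≤ v → v ≤ n → Emp n s X Y v (s v) →
      x ≤ v → y ≤ s v → AA n s t (k+1) x y
  | pair {k X Y a b x y : ℕ} : AA n s t k X Y → 1 ≤ a → a ≤ n → 1 ≤ b → b ≤ n →
      b ≤ mx s a → a ≤ mx t b → Emp n s X Y a b → x ≤ mx t b → y ≤ mx s a →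
      AA n s t (k+2) x y

/-- every point at most (in one coordinate) the corner of `D` is covered by `D` -/
def SC (n : ℕ) (s : ℕ → ℕ) (D : Finset ℕ) : Prop := Cov n s D (D.sup id) (D.sup s)

/-- `C` is an indecomposable upper block of `D` -/
def Blk (s : ℕ → ℕ) (D C : Finset ℕ) : Prop :=
  C ⊆ D ∧ C.Nonempty ∧ (∀ p ∈ D \ C, ∀ u ∈ C, p < u ∧ s p < s u) ∧
  ∀ A ⊆ C, A.Nonempty → A ≠ C → ∃ p ∈ A, ∃ u ∈ C \ A, ¬ (p < u ∧ s p < s u)

/-- the part of `C` in the box `[0,X]×[0,Y]` -/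
def bx (s : ℕ → ℕ) (C : Finset ℕ) (X Y : ℕ) : Finset ℕ := C.filter (fun z => z ≤ X ∧ s z ≤ Y)

/-- Tracing the parent pointers from the node `id` to the root reaches it, uses only nodes in
`{1,...,X} ∪ {n+2,...,n+1+K}`, costs at most `k` and collects the vertex set `D`. -/
inductive Tr (n X K : ℕ) (par va vb : ℕ → ℕ) : ℕ → ℕ → Finset ℕ → Prop
  | root {k : ℕ} : Tr n X K par va vb (n+1) k ∅
  | one {id k k' : ℕ} {D : Finset ℕ} :
      ((1 ≤ id ∧ id ≤ X) ∨ (n + 1 < id ∧ id ≤ n + 1 + K)) →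
      Tr n X K par va vb (par id) k D → k + 1 ≤ k' → 1 ≤ va id → va id ≤ n → vb id = 0 →
      Tr n X K par va vb id k' (insert (va id) D)
  | two {id k k' : ℕ} {D : Finset ℕ} :
      ((1 ≤ id ∧ id ≤ X) ∨ (n + 1 < id ∧ id ≤ n + 1 + K)) →
      Tr n X K par va vb (par id) k D → k + 2 ≤ k' → 1 ≤ va id → va id ≤ n →
      1 ≤ vb id → vb id ≤ n →
      Tr n X K par va vb id k' (insert (va id) (insert (vb id) D))

end PDS
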