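import Pool.Agent.PDS.Defs

/-! A covering set for a frontier with nothing beyond it is dominating. -/

namespace PDS

variable {n : ℕ} {s t : ℕ → ℕ}

/-- a covering set for a frontier with nothing beyond it is dominating -/
theorem P_cov_dom {D : Finset ℕ} {X Y : ℕ} (hc : Cov n s D X Y) (hq : QE n s X Y) :
    ∀ z, 1 ≤ z → z ≤ n → dom s D z := by
  intro z h1 h2
  by_cases h3 : z ≤ X
  · exact hc z h1 h2 (Or.inl h3)
  · by_cases h4 : s z ≤ Y
    · exact hc z h1 h2 (Or.inr h4)
    · exact absurd (hq z h1 h2 (by omega) (by omega)) (fun h => h)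

end PDS
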